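import Mathlib
import Pool.Agent.Helper800.KLBack

set_option autoImplicit false

namespace Pool.Agent.Results.MP_958dc4_gt.NotHomeomorphic

/-- `(W, μ)` is a `K`-reflection of `X`. -/
def IsReflection (K : (X : Type) → [TopologicalSpace X] → Prop) (X W : Type) [TopologicalSpace X]
    [TopologicalSpace W] (μ : X → W) : Prop :=
  Continuous μ ∧ K W ∧ ∀ (Y : Type) [TopologicalSpace Y], K Y → ∀ f : X → Y, Continuous f →
    ∃! h : W → Y, Continuous h ∧ h ∘ μ = f

/-- The closed `K`-determined subsets of `X`. -/
abbrev Determined (K : (X : Type) → [TopologicalSpace X] → Prop) (X : Type)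
    [TopologicalSpace X] : Type :=
  {A : Set X // IsClosed A ∧ ∀ (Y : Type) [TopologicalSpace Y], K Y →
    ∀ f : X → Y, Continuous f → ∃! y : Y, closure (f '' A) = closure {y}}

/-- The lower Vietoris topology on the closed `K`-determined subsets. -/
abbrev lowerVietoris (K : (X : Type) → [TopologicalSpace X] → Prop) (X : Type)
    [TopologicalSpace X] : TopologicalSpace (Determined K X) :=
  TopologicalSpace.generateFrom {S | ∃ U : Set X, IsOpen U ∧ S = {A | (A.1 ∩ U).Nonempty}}

/-- `K` is a homeomorphism-closed adequate class of T0 spaces containing the sober spaces. -/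
structure IsAdequate (K : (X : Type) → [TopologicalSpace X] → Prop) : Prop where
  t0 : ∀ (X : Type) [TopologicalSpace X], K X → T0Space X
  homeo : ∀ (X Y : Type) [TopologicalSpace X] [TopologicalSpace Y],
    Nonempty (X ≃ₜ Y) → K X → K Y
  sober : ∀ (X : Type) [TopologicalSpace X] [T0Space X] [QuasiSober X], K X
  adequate : ∀ (X : Type) [TopologicalSpace X] [T0Space X],
    @K (Determined K X) (lowerVietoris K X)

/-- There are an adequate homeomorphism-closed class K and a sequence of T0 spaces `X i` with
K-reflections `R i` such that the product of the `X i` has a K-reflection, and no K-reflection of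
this product is homeomorphic to the product of the `R i`. -/
theorem result :
    ∃ K : (X : Type) → [TopologicalSpace X] → Prop, IsAdequate K ∧
      ∃ (X : ℕ → Type) (_ : ∀ i, TopologicalSpace (X i)) (_ : ∀ i, T0Space (X i))
        (R : ℕ → Type) (_ : ∀ i, TopologicalSpace (R i)) (η : ∀ i, X i → R i),
        (∀ i, IsReflection K (X i) (R i) (η i)) ∧
        (∃ (W : Type) (_ : TopologicalSpace W) (μ : (∀ i, X i) → W),
          IsReflection K (∀ i, X i) W μ) ∧
        ∀ (W : Type) [TopologicalSpace W] (μ : (∀ i, X i) → W),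
          IsReflection K (∀ i, X i) W μ → IsEmpty (W ≃ₜ ∀ i, R i) := by
  refine ⟨fun X _ => Helper800.KL.K X, ⟨fun X _ h => h.1,
    fun X Y _ _ h => fun hX => Helper800.KL.K_homeo X Y h.some hX,
    fun X _ _ _ => Helper800.KL.K_sober X, fun X _ _ => Helper800.KLAd.K_adequate X⟩,
    Helper800.KL.A, fun n => inferInstance, fun n => Helper800.KL.t0A n,
    Helper800.KL.R, fun n => inferInstance, fun _ => Helper800.KL.inc,
    fun n => ⟨Helper800.KL.continuous_inc n, Helper800.KL.K_R n,
      fun Z _ hZ g hg => Helper800.KL.refl_inc n Z hZ g hg⟩,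
    Helper800.KLBack.refl_exists (∀ n, Helper800.KL.A n), ?_⟩
  intro W _ μ hμ
  obtain ⟨h, hh, -⟩ := hμ.2.2 Helper800.KL.Z Helper800.KL.K_Z Helper800.KL.gZ
    Helper800.KL.continuous_gZ
  exact ⟨fun e => Helper800.KLBack.not_homeo W μ ⟨h, hh⟩ e⟩

end Pool.Agent.Results.MP_958dc4_gt.NotHomeomorphic
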